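import Pool.Agent.X26.LF.Stm

/-! LF_STG: one stage of the construction. -/

set_option autoImplicit false

namespace Pool.Agent.X60.LF

open Finset Pool.Agent.X26.LF

open Classical in
theorem t_STG : S_STG := by
  intro hSM hBAD hCNT m p N hp u v A U hm hNP hfree hN1 hN2
  let Xs : (Fin N → ZMod p) → Finset (ZMod p) :=
    fun x => (univ.filter fun i => ¬ Bad v p A x i).image x
  have hXmem : ∀ (x : Fin N → ZMod p) (a : ZMod p),
      a ∈ Xs x ↔ ∃ i, ¬ Bad v p A x i ∧ x i = a := by
    intro x a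
    simp [Xs]
  have hXcard : ∀ x, (Xs x).card ≤ N := by
    intro x
    calc (Xs x).card ≤ (univ.filter fun i => ¬ Bad v p A x i).card := card_image_le
      _ ≤ (univ : Finset (Fin N)).card := card_filter_le _ _
      _ = N := by simp
  have hXfree : ∀ x, Free v p (A ∪ Xs x) := by
    intro x K0 a ha hrel
    by_cases hL : ∀ k ∈ K0, a k ∈ A
    · exact hfree K0 a hL hrel
    · push Not at hL
      obtain ⟨k0, hk0, hk0A⟩ := hL
      have hX : ∀ k ∈ K0, a k ∉ A → ∃ i, ¬ Bad v p A x i ∧ x i = a k := by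
        intro k hk hkA
        rcases mem_union.1 (ha k hk) with h | h
        · exact absurd h hkA
        · exact (hXmem x _).1 h
      obtain ⟨i0, hi0, hi0x⟩ := hX k0 hk0 hk0A
      let κ : Fin m → Fin N := fun k =>
        if h : k ∈ K0 ∧ a k ∉ A then (hX k h.1 h.2).choose else i0
      have hκ : ∀ k ∈ K0, a k ∉ A → ¬ Bad v p A x (κ k) ∧ x (κ k) = a k := by
        intro k hk hkA
        have : κ k = (hX k hk hkA).choose := dif_pos ⟨hk, hkA⟩
        rw [this]
        exact (hX k hk hkA).choose_spec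
      refine (hκ k0 hk0 hk0A).1 ⟨K0.filter (fun k => a k ∈ A), K0.filter (fun k => a k ∉ A),
        a, κ, ?_, ?_, ?_, ?_⟩
      · exact disjoint_filter_filter_not _ _ _
      · intro k hk; exact (mem_filter.1 hk).2
      · exact ⟨k0, mem_filter.2 ⟨hk0, hk0A⟩, rfl⟩
      · have e2 : ∑ k ∈ K0.filter (fun k => a k ∉ A), (v k : ZMod p) * x (κ k) =
            ∑ k ∈ K0.filter (fun k => a k ∉ A), (v k : ZMod p) * a k := by
          apply sum_congr rfl
          intro k hk
          rw [mem_filter] at hk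
          rw [(hκ k hk.1 hk.2).2]
        rw [e2, sum_filter_add_sum_filter_not]
        exact hrel
  have hp0 : 0 < p := hp.out.pos
  have hcov : ∀ s : ZMod p,
      4 * (univ.filter fun x : Fin N → ZMod p => ¬ Cov u p (Xs x) s).card ≤ p ^ N := by
    intro s
    have h1 := hSM m p N (fun j => (u j : ZMod p)) s hm hNP.1 hN1
    have h2 := hBAD hCNT m p N u v A s hm hNP hfree
    set F1 := univ.filter fun x : Fin N → ZMod p =>
      ¬ ∃ ι : Fin m ↪ Fin N, ∑ j, (u j : ZMod p) * x (ι j) = s with hF1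
    set F2 := univ.filter fun x : Fin N → ZMod p =>
      ∃ ι : Fin m ↪ Fin N, ∑ j, (u j : ZMod p) * x (ι j) = s ∧ ∃ j, Bad v p A x (ι j) with hF2
    have h3 : (univ.filter fun x : Fin N → ZMod p => ¬ Cov u p (Xs x) s) ⊆ F1 ∪ F2 := by
      intro x hx
      rw [mem_filter] at hx
      rw [mem_union, hF1, hF2, mem_filter, mem_filter]
      by_cases h : ∃ ι : Fin m ↪ Fin N, ∑ j, (u j : ZMod p) * x (ι j) = s
      · right
        obtain ⟨ι, hι⟩ := h
        refine ⟨mem_univ _, ι, hι, ?_⟩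
        by_contra hno
        push Not at hno
        apply hx.2
        exact ⟨fun j => x (ι j), fun j => (hXmem x _).2 ⟨ι j, hno j, rfl⟩, hι⟩
      · left; exact ⟨mem_univ _, h⟩
    have h4 : 8 * F2.card ≤ p ^ N := by
      have h5 : p ^ 2 * (8 * F2.card) ≤ p ^ 2 * p ^ N := by
        calc p ^ 2 * (8 * F2.card) = 8 * (p ^ 2 * F2.card) := by ring
          _ ≤ 8 * (m ^ 2 * 4 ^ m * (A.card + N) ^ (2 * m - 1) * p ^ N) :=
              Nat.mul_le_mul_left _ h2
          _ = (8 * (m ^ 2 * 4 ^ m * (A.card + N) ^ (2 * m - 1))) * p ^ N := by ring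
          _ ≤ p ^ 2 * p ^ N := Nat.mul_le_mul_right _ hN2
      exact Nat.le_of_mul_le_mul_left h5 (by positivity)
    have h6 := (card_le_card h3).trans (card_union_le _ _)
    omega
  by_contra hno
  push Not at hno
  have hx : ∀ x : Fin N → ZMod p,
      U.card < 2 * (U.filter fun s => ¬ Cov u p (Xs x) s).card :=
    fun x => hno (Xs x) (hXcard x) (hXfree x)
  have hsum : ∑ x : Fin N → ZMod p, (U.filter fun s => ¬ Cov u p (Xs x) s).card =
      ∑ s ∈ U, (univ.filter fun x : Fin N → ZMod p => ¬ Cov u p (Xs x) s).card := by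
    simp only [card_filter]
    exact sum_comm
  have h1 : ∑ s ∈ U, 4 * (univ.filter fun x : Fin N → ZMod p => ¬ Cov u p (Xs x) s).card ≤
      ∑ s ∈ U, p ^ N := sum_le_sum fun s _ => hcov s
  rw [← mul_sum, ← hsum, sum_const, smul_eq_mul] at h1
  have h2 : ∑ x : Fin N → ZMod p, U.card <
      ∑ x : Fin N → ZMod p, 2 * (U.filter fun s => ¬ Cov u p (Xs x) s).card :=
    sum_lt_sum_of_nonempty ⟨fun _ => 0, mem_univ _⟩ fun x _ => hx x
  rw [sum_const, ← mul_sum, smul_eq_mul] at h2
  have h3 : (univ : Finset (Fin N → ZMod p)).card = p ^ N := by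
    rw [card_univ, Fintype.card_fun, ZMod.card, Fintype.card_fin]
  rw [h3] at h2
  nlinarith

end Pool.Agent.X60.LF
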